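import Mathlib

namespace Pool.Agent.H.MP_6c6b5e_an
open Complex

variable {A B : Type*} [CStarAlgebra A] [CStarAlgebra B]

def Ab (a : A) (c : ℝ) : Prop := ∀ l ∈ spectrum ℂ a, l.re ≤ c

lemma mem_spec (L : Ideal A) (hL : L.IsMaximal) {a : A} {l : ℂ}
    (h : algebraMap ℂ A l - a ∈ L) : l ∈ spectrum ℂ a := by
  rw [spectrum.mem_iff]
  intro hu
  exact hL.ne_top (Ideal.eq_top_of_isUnit_mem L h hu)

lemma mem_spec' (L : Ideal A) (hL : L.IsMaximal) {a : A} {l : ℂ}
    (h : a - algebraMap ℂ A l ∈ L) : l ∈ spectrum ℂ a := by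
  apply mem_spec L hL
  have := L.neg_mem h
  rwa [neg_sub] at this

lemma scal_eq (L : Ideal A) (hL : L.IsMaximal) {a : A} {l k : ℂ}
    (h : a - algebraMap ℂ A l ∈ L) (h' : a - algebraMap ℂ A k ∈ L) : l = k := by
  by_contra hne
  have h1 : algebraMap ℂ A (k - l) ∈ L := by
    have := L.sub_mem h h'
    rw [map_sub]
    convert this using 1
    abel
  have hu : IsUnit (algebraMap ℂ A (k - l)) :=
    (IsUnit.mk0 _ (sub_ne_zero.2 (Ne.symm hne))).map _
  exact hL.ne_top (Ideal.eq_top_of_isUnit_mem L h1 hu)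

lemma smul_mem' (L : Ideal A) (c : ℂ) {a : A} (h : a ∈ L) : c • a ∈ L := by
  rw [Algebra.smul_def]; exact L.mul_mem_left _ h

lemma exists_char (L : Ideal A) (hL : L.IsMaximal) (z : A) (hz : ∀ a, a * z = z * a) :
    ∃ μ : ℂ, z - algebraMap ℂ A μ ∈ L := by
  let S : Submodule ℂ A := L.restrictScalars ℂ
  have : IsClosed (S : Set A) := Ideal.IsMaximal.isClosed (I := L)
  have hS : ∀ x, x ∈ S ↔ x ∈ L := fun x => Iff.rfl
  let f : A →L[ℂ] (A ⧸ S) := S.mkQL.comp (ContinuousLinearMap.mul ℂ A z)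
  have hf : ∀ x, f x = S.mkQ (z * x) := fun x => rfl
  have hker : S ≤ f.ker := by
    intro x hx
    have : f x = 0 := by
      rw [hf, Submodule.mkQ_apply, Submodule.Quotient.mk_eq_zero, hS]
      exact L.mul_mem_left _ hx
    exact this
  let F : (A ⧸ S) →L[ℂ] (A ⧸ S) := S.liftQL f hker
  have hF : ∀ x, F (S.mkQ x) = S.mkQ (z * x) := fun x => rfl
  have : Nontrivial (A ⧸ S) := by
    refine ⟨⟨S.mkQ 1, 0, ?_⟩⟩
    rw [Ne, Submodule.mkQ_apply, Submodule.Quotient.mk_eq_zero, hS]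
    exact (Ideal.ne_top_iff_one L).1 hL.ne_top
  obtain ⟨μ, hμ⟩ := spectrum.nonempty F
  refine ⟨μ, ?_⟩
  by_contra hn
  rw [spectrum.mem_iff] at hμ
  apply hμ
  rw [ContinuousLinearMap.isUnit_iff_bijective]
  obtain ⟨w, hw⟩ : ∃ w, w = algebraMap ℂ A μ - z := ⟨_, rfl⟩
  have hwn : w ∉ L := by
    intro h; apply hn
    have := L.neg_mem h
    rwa [hw, neg_sub] at this
  have hwc : ∀ a, a * w = w * a := by
    intro a; rw [hw, mul_sub, sub_mul, hz, Algebra.commutes]
  have hG : ∀ x, (algebraMap ℂ _ μ - F) (S.mkQ x) = S.mkQ (w * x) := by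
    intro x
    rw [hw, sub_mul, map_sub, ← hF, ← Algebra.smul_def, map_smul, Algebra.algebraMap_eq_smul_one]
    rfl
  obtain ⟨b, l, hl, hbl⟩ := hL.exists_inv hwn
  constructor
  · rw [injective_iff_map_eq_zero]
    intro y hy
    obtain ⟨x, rfl⟩ := S.mkQ_surjective y
    rw [hG, Submodule.mkQ_apply, Submodule.Quotient.mk_eq_zero, hS] at hy
    rw [Submodule.mkQ_apply, Submodule.Quotient.mk_eq_zero, hS]
    by_contra hx
    obtain ⟨b', l', hl', hbl'⟩ := hL.exists_inv hx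
    apply hwn
    have : w = b' * (w * x) + w * l' := by
      rw [← mul_assoc, hwc b', mul_assoc, ← mul_add, hbl', mul_one]
    rw [this]
    exact L.add_mem (L.mul_mem_left _ hy) (L.mul_mem_left _ hl')
  · intro y
    obtain ⟨x, rfl⟩ := S.mkQ_surjective y
    refine ⟨S.mkQ (x * b), ?_⟩
    rw [hG, Submodule.mkQ_apply, Submodule.mkQ_apply, Submodule.Quotient.eq, hS]
    have : w * (x * b) - x = -(x * l) := by
      rw [← hwc, mul_assoc]
      have : b * w = 1 - l := by rw [← hbl]; abel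
      rw [this]; noncomm_ring
    rw [this]
    exact L.neg_mem (L.mul_mem_left _ hl)

lemma ab_of_loc (a : A) (c : ℝ)
    (h : ∀ L : Ideal A, L.IsMaximal → ∀ l : ℂ, algebraMap ℂ A l - a ∈ L → l.re ≤ c) :
    Ab a c := by
  intro l1 hl1
  obtain ⟨l, hl, hmax⟩ := (spectrum.isCompact (𝕜 := ℂ) a).exists_isMaxOn ⟨l1, hl1⟩
    Complex.continuous_re.continuousOn
  refine le_trans (hmax hl1) ?_
  by_cases ht : Ideal.span {algebraMap ℂ A l - a} = ⊤
  · exfalso
    rw [Ideal.eq_top_iff_one, Ideal.mem_span_singleton'] at ht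
    obtain ⟨b, hb⟩ := ht
    obtain ⟨t, ht⟩ : ∃ t : ℝ, t = (‖b‖ + 1)⁻¹ := ⟨_, rfl⟩
    have ht0 : 0 < t := by rw [ht]; positivity
    have h1 : IsUnit (algebraMap ℂ A (l + t) - a) := by
      by_contra hh
      have := hmax (spectrum.mem_iff.2 hh)
      simp at this
      linarith
    have h2 : IsUnit (1 - (-(t : ℂ)) • b) := by
      refine (Units.oneSub _ ?_).isUnit
      rw [norm_smul, norm_neg, Complex.norm_real, Real.norm_of_nonneg ht0.le, ht,
        inv_mul_lt_iff₀ (by positivity)]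
      linarith
    have h3 : b * (algebraMap ℂ A (l + t) - a) = 1 - (-(t : ℂ)) • b := by
      rw [← hb, map_add, neg_smul, sub_neg_eq_add, Algebra.smul_def, Algebra.commutes]
      noncomm_ring
    have h4 : IsUnit b := by
      rw [← h3] at h2
      exact (h1.mul_right_iff).1 h2
    have h5 : IsUnit (algebraMap ℂ A l - a) := by
      have : IsUnit (b * (algebraMap ℂ A l - a)) := by rw [hb]; exact isUnit_one
      exact (h4.mul_left_iff).1 this
    exact spectrum.mem_iff.1 hl h5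
  · obtain ⟨L, hL, hle⟩ := Ideal.exists_le_maximal _ ht
    exact h L hL l (hle (Ideal.subset_span rfl))

lemma ab_transfer (a : A) (b : B) (c : ℝ)
    (h : ∀ M : ℝ, spectralRadius ℂ (b + algebraMap ℂ B M) ≤
      spectralRadius ℂ (a + algebraMap ℂ A M)) (ha : Ab a c) : Ab b c := by
  intro μ hμ
  obtain ⟨K, hK⟩ : ∃ K, K = ‖a‖ * ‖(1 : A)‖ := ⟨_, rfl⟩
  have key : ∀ M : ℝ, 2 * |c| ≤ M → 2 * M * μ.re ≤ K ^ 2 + 2 * M * c := by
    intro M hM
    have hc := abs_nonneg c
    have hc' := neg_abs_le c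
    have hrad : 0 ≤ K ^ 2 + 2 * M * c + M ^ 2 := by nlinarith [sq_nonneg K]
    have h1 : μ + M ∈ spectrum ℂ (b + algebraMap ℂ B M) := by
      rw [spectrum.mem_iff] at hμ ⊢
      rw [map_add]
      convert hμ using 2
      abel
    have h2 : (‖μ + M‖₊ : ENNReal) ≤ spectralRadius ℂ (b + algebraMap ℂ B M) :=
      le_iSup₂ (α := ENNReal) (f := fun (k : ℂ) (_ : k ∈ spectrum ℂ (b + algebraMap ℂ B M)) =>
        (‖k‖₊ : ENNReal)) (μ + M) h1
    have h3 : spectralRadius ℂ (a + algebraMap ℂ A M) ≤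
        ENNReal.ofReal (Real.sqrt (K ^ 2 + 2 * M * c + M ^ 2)) := by
      refine iSup₂_le fun k hk => ?_
      have hk' : k - M ∈ spectrum ℂ a := by
        rw [spectrum.mem_iff] at hk ⊢
        rw [map_sub]
        convert hk using 2
        abel
      have e1 := ha _ hk'
      have e2 : ‖k - M‖ ≤ K := hK ▸ spectrum.norm_le_norm_mul_of_mem hk'
      have e3 : ‖k - M‖ ^ 2 ≤ K ^ 2 := pow_le_pow_left₀ (norm_nonneg _) e2 2
      rw [← ENNReal.ofReal_coe_nnreal, coe_nnnorm]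
      apply ENNReal.ofReal_le_ofReal
      apply Real.le_sqrt_of_sq_le
      rw [Complex.sq_norm, Complex.normSq_apply] at e3 ⊢
      simp at e1 e3
      nlinarith
    have h4 := (h2.trans (h M)).trans h3
    rw [← ENNReal.ofReal_coe_nnreal, coe_nnnorm,
      ENNReal.ofReal_le_ofReal_iff (Real.sqrt_nonneg _)] at h4
    have h5 := pow_le_pow_left₀ (norm_nonneg _) h4 2
    rw [Real.sq_sqrt hrad, Complex.sq_norm, Complex.normSq_apply] at h5
    simp at h5
    nlinarith [sq_nonneg μ.re, sq_nonneg μ.im]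
  by_contra hlt
  push Not at hlt
  have hd : 0 < μ.re - c := by linarith
  have := key (2 * |c| + K ^ 2 / (μ.re - c) + 1) (by
    have : 0 ≤ K ^ 2 / (μ.re - c) := by positivity
    linarith)
  have e : K ^ 2 / (μ.re - c) * (μ.re - c) = K ^ 2 := by field_simp
  nlinarith [abs_nonneg c, sq_nonneg K, mul_nonneg (abs_nonneg c) hd.le]

lemma ab_star {a : A} {c : ℝ} (h : Ab a c) : Ab (star a) c := by
  intro l hl
  rw [spectrum.map_star, Set.mem_star] at hl
  simpa using h _ hl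

lemma ab_zero {c : ℝ} (hc : 0 ≤ c) : Ab (0 : A) c := by
  intro l hl
  by_contra h
  apply spectrum.mem_iff.1 hl
  rw [sub_zero]
  refine (IsUnit.mk0 l ?_).map _
  rintro rfl
  simp at h
  linarith

end Pool.Agent.H.MP_6c6b5e_an
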