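import Mathlib
import Pool.Agent.H.MP_6c6b5e_an.A

namespace Pool.Agent.H.MP_6c6b5e_an
open Complex

variable {A B : Type*} [CStarAlgebra A] [CStarAlgebra B]

lemma le_of_ab [PartialOrder B] [StarOrderedRing B] {s : B} (hs : IsSelfAdjoint s) {c : ℝ}
    (h : Ab s c) : s ≤ algebraMap ℝ B c := by
  rw [le_algebraMap_iff_spectrum_le hs]
  intro x hx
  have := h (x : ℂ) (spectrum.algebraMap_mem ℂ hx)
  simpa using this

lemma norm_le_of_le [PartialOrder B] [StarOrderedRing B] {s : B} (hs : IsSelfAdjoint s) {c : ℝ}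
    (hc : 0 ≤ c) (h1 : s ≤ algebraMap ℝ B c) (h2 : -s ≤ algebraMap ℝ B c) : ‖s‖ ≤ c := by
  rcases subsingleton_or_nontrivial B with hB | hB
  · rw [Subsingleton.elim s 0, norm_zero]; exact hc
  have h3 : algebraMap ℝ B (-c) ≤ s := by rw [map_neg]; exact neg_le.1 h2
  rw [le_algebraMap_iff_spectrum_le hs] at h1
  rw [algebraMap_le_iff_le_spectrum hs] at h3
  rcases CStarAlgebra.norm_or_neg_norm_mem_spectrum hs with h | h
  · exact h1 _ h
  · linarith [h3 _ h]

def Pr (v : A) : Prop := ∀ (y : A) (c t : ℝ), Ab y c → Ab (y + ((t : ℂ) * I) • v) c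

lemma pr_central {u : A} (hu : ∀ a, a * u = u * a) (hs : IsSelfAdjoint u) : Pr u := by
  intro y c t hy
  apply ab_of_loc
  intro L hL l hl
  obtain ⟨ν, hν⟩ := exists_char L hL u hu
  have h1 := hs.im_eq_zero_of_mem_spectrum (mem_spec' L hL hν)
  have h2 : algebraMap ℂ A (l - (t * I) * ν) - y ∈ L := by
    have := L.add_mem hl (smul_mem' L ((t : ℂ) * I) hν)
    convert this using 1
    simp only [Algebra.algebraMap_eq_smul_one]
    module
  have := hy _ (mem_spec L hL h2)
  simpa [h1] using this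

lemma pr_sa {v : B} (h : Pr v) : IsSelfAdjoint v := by
  let := CStarAlgebra.spectralOrder B
  have := CStarAlgebra.spectralOrderedRing B
  have hstar : Pr (star v) := by
    intro y c t hy
    have := ab_star (h (star y) c (-t) (ab_star hy))
    simpa using this
  have hk : ∀ t : ℝ, Ab (((t : ℂ) * I) • (v - star v)) 0 := by
    intro t
    have := hstar _ _ (-t) (h 0 0 t (ab_zero le_rfl))
    convert this using 1
    push_cast
    module
  have hs : IsSelfAdjoint (I • (v - star v)) := by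
    rw [IsSelfAdjoint, star_smul, star_sub, star_star]
    simp only [RCLike.star_def, conj_I]
    module
  have h1 : Ab (I • (v - star v)) 0 := by simpa using hk 1
  have h2 : Ab (-(I • (v - star v))) 0 := by simpa using hk (-1)
  have h3 := norm_le_of_le hs le_rfl (le_of_ab hs h1) (le_of_ab hs.neg h2)
  have h4 : I • (v - star v) = 0 := norm_le_zero_iff.1 h3
  rw [smul_eq_zero] at h4
  rcases h4 with h4 | h4
  · exact absurd h4 I_ne_zero
  · exact (sub_eq_zero.1 h4).symm

lemma near_ideal [PartialOrder B] [StarOrderedRing B] (G : TwoSidedIdeal B) {q h1 h2 : B}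
    (hq : IsSelfAdjoint q) (s1 : IsSelfAdjoint h1) (s2 : IsSelfAdjoint h2)
    (m1 : h1 ∈ G) (m2 : h2 ∈ G) {ε : ℝ} (hε : 0 < ε)
    (l1 : q + h1 ≤ algebraMap ℝ B ε) (l2 : -q + h2 ≤ algebraMap ℝ B ε) :
    ∃ g ∈ G, ‖q - g‖ ≤ 2 * ε := by
  obtain ⟨w, hw⟩ : ∃ w : B, w = (1 / (4 * ε ^ 2) : ℝ) • (h1 * h1 + h2 * h2) := ⟨_, rfl⟩
  have p1 : 0 ≤ h1 * h1 := by simpa [s1.star_eq] using star_mul_self_nonneg h1
  have p2 : 0 ≤ h2 * h2 := by simpa [s2.star_eq] using star_mul_self_nonneg h2
  have hw0 : 0 ≤ w := by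
    rw [hw]; exact smul_nonneg (by positivity) (add_nonneg p1 p2)
  have hws : IsSelfAdjoint w := IsSelfAdjoint.of_nonneg hw0
  have hwG : w ∈ G := by
    rw [hw, Algebra.smul_def]
    exact G.mul_mem_left _ _ (G.add_mem (G.mul_mem_left _ _ m1) (G.mul_mem_left _ _ m2))
  have pw : 0 ≤ w * w := by simpa [hws.star_eq] using star_mul_self_nonneg w
  have key : ∀ p h k : B, IsSelfAdjoint h → 0 ≤ k * k →
      w = (1 / (4 * ε ^ 2) : ℝ) • (h * h + k * k) →
      p + h ≤ algebraMap ℝ B ε → p ≤ (2 * ε) • ((1 + w) * (1 + w)) := by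
    intro p h k sh pk hw l
    have a1 : 0 ≤ (h + (2 * ε) • (1 : B)) * (h + (2 * ε) • (1 : B)) := by
      have s : IsSelfAdjoint (h + (2 * ε) • (1 : B)) :=
        sh.add (IsSelfAdjoint.smul (IsSelfAdjoint.all _) (IsSelfAdjoint.one B))
      simpa [s.star_eq] using star_mul_self_nonneg (h + (2 * ε) • (1 : B))
    rw [← sub_nonneg] at l ⊢
    have e : (2 * ε) • ((1 + w) * (1 + w)) - p = (algebraMap ℝ B ε - (p + h)) +
        (1 / (4 * ε)) • ((h + (2 * ε) • (1 : B)) * (h + (2 * ε) • (1 : B))) +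
        (1 / (4 * ε)) • (k * k) + (3 * ε) • w + (2 * ε) • (w * w) := by
      have e2 : h * h = (4 * ε ^ 2) • w - k * k := by
        rw [hw, smul_smul, mul_one_div_cancel (by positivity), one_smul]; abel
      simp only [add_mul, mul_add, one_mul, mul_one, smul_mul_assoc, mul_smul_comm, e2,
        Algebra.algebraMap_eq_smul_one]
      match_scalars <;> field_simp <;> ring
    rw [e]
    have : (0 : ℝ) ≤ 1 / (4 * ε) := by positivity
    refine add_nonneg (add_nonneg (add_nonneg (add_nonneg l (smul_nonneg this a1))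
      (smul_nonneg this pk)) (smul_nonneg (by positivity) hw0)) (smul_nonneg (by positivity) pw)
  have k1 := key q h1 h2 s1 p2 hw l1
  have k2 := key (-q) h2 h1 s2 p1 (by rw [hw, add_comm]) l2
  have hu : IsUnit (1 + w) :=
    CStarAlgebra.isUnit_of_le 1 (le_add_of_nonneg_right hw0) isStrictlyPositive_one
  obtain ⟨d, hd⟩ := hu
  obtain ⟨s, hs⟩ : ∃ s : B, s = ↑d⁻¹ := ⟨_, rfl⟩
  have i1 : s * (1 + w) = 1 := by rw [hs, ← hd, Units.inv_mul]
  have i2 : (1 + w) * s = 1 := by rw [hs, ← hd, Units.mul_inv]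
  have ss : star s = s := by
    have : (1 + w) * star s = 1 := by
      have := congrArg star i1
      rwa [star_mul, star_add, star_one, hws.star_eq] at this
    calc star s = s * (1 + w) * star s := by rw [i1, one_mul]
      _ = s := by rw [mul_assoc, this, mul_one]
  have conj : ∀ p : B, p ≤ (2 * ε) • ((1 + w) * (1 + w)) → s * p * s ≤ algebraMap ℝ B (2 * ε) := by
    intro p hp
    have := star_left_conjugate_le_conjugate hp s
    rw [ss, mul_smul_comm, smul_mul_assoc, ← mul_assoc, i1, one_mul, i2] at this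
    rwa [Algebra.algebraMap_eq_smul_one]
  have hsq : IsSelfAdjoint (s * q * s) := by
    rw [IsSelfAdjoint, star_mul, star_mul, ss, hq.star_eq, mul_assoc]
  refine ⟨q - s * q * s, ?_, ?_⟩
  · have e : q - s * q * s = s * w * q + s * q * w * s := by
      linear_combination (norm := noncomm_ring) (-1 : B) * i1 * q - s * q * i2
    rw [e]
    exact G.add_mem (G.mul_mem_right _ _ (G.mul_mem_left _ _ hwG))
      (G.mul_mem_right _ _ (G.mul_mem_left _ _ hwG))
  · rw [sub_sub_cancel]
    refine norm_le_of_le hsq (by positivity) (conj q k1) ?_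
    have := conj (-q) k2
    rwa [mul_neg, neg_mul] at this

end Pool.Agent.H.MP_6c6b5e_an
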