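import Mathlib
import Pool.Agent.H.MP_6c6b5e_an.B

namespace Pool.Agent.H.MP_6c6b5e_an
open Complex

variable {A B : Type*} [CStarAlgebra A] [CStarAlgebra B]

lemma star_central {z : A} (hz : ∀ a, a * z = z * a) (a : A) : a * star z = star z * a := by
  have := congrArg star (hz (star a))
  rw [star_mul, star_mul, star_star] at this
  exact this.symm

lemma star_char (L : Ideal A) (hL : L.IsMaximal) {z : A} (hz : ∀ a, a * z = z * a) {μ : ℂ}
    (h : z - algebraMap ℂ A μ ∈ L) : star z - algebraMap ℂ A (starRingEnd ℂ μ) ∈ L := by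
  obtain ⟨ν, hν⟩ := exists_char L hL (star z) (star_central hz)
  have h1 : (z + star z) - algebraMap ℂ A (μ + ν) ∈ L := by
    convert L.add_mem h hν using 1
    rw [map_add]; abel
  have h2 : I • (z - star z) - algebraMap ℂ A (I * (μ - ν)) ∈ L := by
    convert smul_mem' L I (L.sub_mem h hν) using 1
    simp only [Algebra.algebraMap_eq_smul_one]
    module
  have s1 : IsSelfAdjoint (z + star z) := IsSelfAdjoint.add_star_self z
  have s2 : IsSelfAdjoint (I • (z - star z)) := by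
    rw [IsSelfAdjoint, star_smul, star_sub, star_star]
    simp only [RCLike.star_def, conj_I]
    module
  have e1 := s1.im_eq_zero_of_mem_spectrum (mem_spec' L hL h1)
  have e2 := s2.im_eq_zero_of_mem_spectrum (mem_spec' L hL h2)
  have : starRingEnd ℂ μ = ν := by
    simp at e1 e2
    apply Complex.ext <;> simp <;> linarith
  rwa [this]

structure Good (S : Set A) : Prop where
  hc : ∀ z ∈ S, ∀ a, a * z = z * a
  h0 : (0 : A) ∈ S
  hadd : ∀ x ∈ S, ∀ y ∈ S, x + y ∈ S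
  hmul : ∀ z ∈ S, ∀ w : A, (∀ a, a * w = w * a) → w * z ∈ S

def Q (S : Set A) (x : A) : Prop := ∀ ε > (0 : ℝ), ∃ h ∈ S, IsSelfAdjoint h ∧
  ∀ L : Ideal A, L.IsMaximal → ∀ t : ℂ, h - algebraMap ℂ A t ∈ L →
    0 ≤ t.re ∧ (t.re ≤ 1 → ∃ e, ‖e‖ ≤ ε ∧ ∀ b, (x - e) * b ∈ L)

lemma Good.smul {S : Set A} (hS : Good S) {z : A} (hz : z ∈ S) (c : ℂ) : c • z ∈ S := by
  rw [Algebra.smul_def]
  exact hS.hmul z hz _ fun a => (Algebra.commutes c a).symm

lemma q_mem {S : Set A} (hS : Good S) {z : A} (hz : z ∈ S) : Q S z := by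
  intro ε hε
  have hzc := hS.hc z hz
  refine ⟨((ε ^ 2)⁻¹ : ℝ) • (star z * z), ?_, ?_, ?_⟩
  · have := hS.smul (hS.hmul z hz _ (star_central hzc)) ((ε ^ 2)⁻¹ : ℝ)
    rwa [Complex.coe_smul] at this
  · exact IsSelfAdjoint.smul (IsSelfAdjoint.all _) (IsSelfAdjoint.star_mul_self z)
  intro L hL t ht
  obtain ⟨μ, hμ⟩ := exists_char L hL z hzc
  have hμ' := star_char L hL hzc hμ
  have h1 : ((ε ^ 2)⁻¹ : ℝ) • (star z * z) -
      algebraMap ℂ A (((ε ^ 2)⁻¹ * ‖μ‖ ^ 2 : ℝ) : ℂ) ∈ L := by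
    have := smul_mem' L ((ε ^ 2)⁻¹ : ℝ) (L.add_mem (L.mul_mem_left (star z) hμ) (smul_mem' L μ hμ'))
    convert this using 1
    have e : ((‖μ‖ : ℂ)) ^ 2 = μ * starRingEnd ℂ μ := by
      rw [Complex.mul_conj, Complex.normSq_eq_norm_sq]; push_cast; ring
    rw [← Complex.coe_smul, Complex.ofReal_mul, Complex.ofReal_pow ‖μ‖, e]
    simp only [Algebra.algebraMap_eq_smul_one, mul_sub, mul_smul_comm, mul_one]
    module
  have h2 := scal_eq L hL ht h1
  have h3 : t.re = (ε ^ 2)⁻¹ * ‖μ‖ ^ 2 := by rw [h2, Complex.ofReal_re]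
  refine ⟨by rw [h3]; positivity, fun h4 => ⟨algebraMap ℂ A μ, ?_, fun b => ?_⟩⟩
  · have : Nontrivial A := ⟨⟨1, 0, fun h => (Ideal.ne_top_iff_one L).1 hL.ne_top
      (h ▸ L.zero_mem)⟩⟩
    rw [norm_algebraMap']
    rw [h3, inv_mul_le_iff₀ (by positivity), mul_one] at h4
    exact (pow_le_pow_iff_left₀ (norm_nonneg _) hε.le two_ne_zero).1 h4
  · rw [sub_mul, ← hzc, Algebra.commutes, ← mul_sub]
    exact L.mul_mem_left _ hμ

lemma q_add {S : Set A} (hS : Good S) {x y : A} (hx : Q S x) (hy : Q S y) : Q S (x + y) := by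
  intro ε hε
  obtain ⟨h1, m1, s1, p1⟩ := hx (ε / 2) (by positivity)
  obtain ⟨h2, m2, s2, p2⟩ := hy (ε / 2) (by positivity)
  refine ⟨h1 + h2, hS.hadd _ m1 _ m2, s1.add s2, fun L hL t ht => ?_⟩
  obtain ⟨t1, ht1⟩ := exists_char L hL h1 (hS.hc _ m1)
  obtain ⟨t2, ht2⟩ := exists_char L hL h2 (hS.hc _ m2)
  have h3 : (h1 + h2) - algebraMap ℂ A (t1 + t2) ∈ L := by
    convert L.add_mem ht1 ht2 using 1
    rw [map_add]; abel
  have h4 := scal_eq L hL ht h3
  obtain ⟨a1, b1⟩ := p1 L hL t1 ht1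
  obtain ⟨a2, b2⟩ := p2 L hL t2 ht2
  have h5 : t.re = t1.re + t2.re := by rw [h4, Complex.add_re]
  refine ⟨by linarith, fun h6 => ?_⟩
  obtain ⟨e1, n1, c1⟩ := b1 (by linarith)
  obtain ⟨e2, n2, c2⟩ := b2 (by linarith)
  refine ⟨e1 + e2, (norm_add_le _ _).trans (by linarith), fun b => ?_⟩
  convert L.add_mem (c1 b) (c2 b) using 1
  noncomm_ring

lemma q_mul {S : Set A} {x : A} (hx : Q S x) (a c : A) : Q S (a * x * c) := by
  intro ε hε
  obtain ⟨h, m, s, p⟩ := hx (ε / ((‖a‖ + 1) * (‖c‖ + 1))) (by positivity)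
  refine ⟨h, m, s, fun L hL t ht => ⟨(p L hL t ht).1, fun h1 => ?_⟩⟩
  obtain ⟨e, n, d⟩ := (p L hL t ht).2 h1
  refine ⟨a * e * c, ?_, fun b => ?_⟩
  · rw [le_div_iff₀ (by positivity)] at n
    calc ‖a * e * c‖ ≤ ‖a‖ * ‖e‖ * ‖c‖ :=
          (norm_mul_le _ _).trans (mul_le_mul_of_nonneg_right (norm_mul_le _ _) (norm_nonneg _))
      _ ≤ (‖a‖ + 1) * ‖e‖ * (‖c‖ + 1) := by gcongr <;> linarith
      _ ≤ ε := by linarith
  · convert L.mul_mem_left a (d (c * b)) using 1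
    noncomm_ring

lemma q_span {S : Set A} (hS : Good S) {x : A} (hx : x ∈ TwoSidedIdeal.span S) : Q S x := by
  induction hx using TwoSidedIdeal.span_induction with
  | mem x h => exact q_mem hS h
  | zero => exact q_mem hS hS.h0
  | add x y _ _ hx hy => exact q_add hS hx hy
  | neg x _ hx => simpa using q_mul hx (-1) 1
  | left_absorb a x _ hx => simpa using q_mul hx a 1
  | right_absorb b x _ hx => simpa using q_mul hx 1 b

lemma q_closure {S : Set A} (hS : Good S) {x : A}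
    (hx : x ∈ closure (TwoSidedIdeal.span S : Set A)) : Q S x := by
  intro ε hε
  obtain ⟨y, hy, hd⟩ := Metric.mem_closure_iff.1 hx (ε / 2) (by positivity)
  obtain ⟨h, m, s, p⟩ := q_span hS hy (ε / 2) (by positivity)
  refine ⟨h, m, s, fun L hL t ht => ⟨(p L hL t ht).1, fun h1 => ?_⟩⟩
  obtain ⟨e, n, d⟩ := (p L hL t ht).2 h1
  rw [dist_eq_norm] at hd
  refine ⟨e + (x - y), (norm_add_le _ _).trans (by linarith), fun b => ?_⟩
  convert d b using 2
  abel

lemma usc (a : A) (c : ℝ) (h : Ab a c) {ε : ℝ} (hε : 0 < ε) :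
    ∃ δ > (0 : ℝ), ∀ e, ‖e‖ ≤ δ → Ab (a + e) (c + ε) := by
  obtain ⟨R, hR⟩ : ∃ R, R = (‖a‖ + 1) * ‖(1 : A)‖ := ⟨_, rfl⟩
  have hK : IsCompact (Metric.closedBall (0 : ℂ) R ∩ {l | c + ε ≤ l.re}) :=
    (isCompact_closedBall _ _).inter_right (isClosed_le continuous_const Complex.continuous_re)
  have hW : IsOpen {p : ℂ × A | IsUnit (algebraMap ℂ A p.1 - (a + p.2))} :=
    Units.isOpen.preimage (f := fun p : ℂ × A => algebraMap ℂ A p.1 - (a + p.2)) (by fun_prop)
  obtain ⟨u, v, -, hv, hu, hv0, huv⟩ := generalized_tube_lemma hK (isCompact_singleton (x := (0 : A)))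
    hW (by
      rintro ⟨l, e⟩ ⟨⟨-, hl⟩, he⟩
      simp only [Set.mem_singleton_iff] at he
      subst he
      by_contra hn
      simp only [Set.mem_ofPred_eq, add_zero] at hn hl
      linarith [h l (spectrum.mem_iff.2 hn)])
  obtain ⟨δ, hδ, hb⟩ := Metric.isOpen_iff.1 hv 0 (hv0 rfl)
  refine ⟨min (δ / 2) 1, by positivity, fun e he l hl => ?_⟩
  by_contra hn
  push Not at hn
  have h1 : ‖l‖ ≤ R := by
    refine (spectrum.norm_le_norm_mul_of_mem hl).trans ?_
    rw [hR]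
    gcongr
    exact (norm_add_le _ _).trans (by linarith [min_le_right (δ / 2) 1])
  have h2 : (l, e) ∈ u ×ˢ v := ⟨hu ⟨by simpa using h1, hn.le⟩, hb (by
    simp only [Metric.mem_ball, dist_zero_right]; linarith [min_le_left (δ / 2) 1])⟩
  exact spectrum.mem_iff.1 hl (huv h2)

lemma claim1 {S : Set A} (hS : Good S) {x a : A} (hx : Q S x) {c : ℝ} (ha : Ab a c) {ε : ℝ}
    (hε : 0 < ε) : ∃ g ∈ S, IsSelfAdjoint g ∧ Ab (a + x + g) (c + ε) := by
  obtain ⟨δ, hδ, hu⟩ := usc a c ha hε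
  obtain ⟨h, m, s, p⟩ := hx δ hδ
  obtain ⟨K, hK⟩ : ∃ K : ℝ, K = ‖a + x‖ * ‖(1 : A)‖ + |c + ε| + 1 := ⟨_, rfl⟩
  have hK0 : 0 < K := by rw [hK]; positivity
  refine ⟨((-K : ℝ) : ℂ) • h, hS.smul m _, ?_, ?_⟩
  · rw [Complex.coe_smul]; exact IsSelfAdjoint.smul (IsSelfAdjoint.all _) s
  apply ab_of_loc
  intro L hL l hl
  obtain ⟨t, ht⟩ := exists_char L hL h (hS.hc _ m)
  obtain ⟨t0, t1⟩ := p L hL t ht
  have h1 : algebraMap ℂ A (l + K * t) - (a + x) ∈ L := by
    convert L.sub_mem hl (smul_mem' L (K : ℂ) ht) using 1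
    simp only [Algebra.algebraMap_eq_smul_one]
    push_cast
    module
  have h2 := spectrum.norm_le_norm_mul_of_mem (mem_spec L hL h1)
  have h3 := (Complex.re_le_norm _).trans h2
  have h4 : (l + K * t).re = l.re + K * t.re := by simp
  by_contra hn
  push Not at hn
  have h5 : t.re ≤ 1 := by
    by_contra h6
    push Not at h6
    nlinarith [neg_abs_le (c + ε)]
  obtain ⟨e, n, d⟩ := t1 h5
  have h7 : algebraMap ℂ A (l + K * t) - (a + e) ∈ L := by
    convert L.add_mem h1 (d 1) using 1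
    noncomm_ring
  have := hu e n _ (mem_spec L hL h7)
  nlinarith [mul_nonneg hK0.le t0]

lemma main (T : A →ₗ[ℂ] B) (h1 : T 1 = 1) (hs : Function.Surjective T)
    (hr : ∀ x, spectralRadius ℂ (T x) = spectralRadius ℂ x) {S : Set A} (hS : Good S) {x : A}
    (hx : x ∈ closure (TwoSidedIdeal.span S : Set A)) :
    T x ∈ closure (TwoSidedIdeal.span (T '' S) : Set B) := by
  let _ := CStarAlgebra.spectralOrder B
  have := CStarAlgebra.spectralOrderedRing B
  have hT : ∀ a c, Ab (T a) c ↔ Ab a c := by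
    intro a c
    have e : ∀ M : ℝ, spectralRadius ℂ (T a + algebraMap ℂ B M) =
        spectralRadius ℂ (a + algebraMap ℂ A M) := by
      intro M
      rw [← hr, map_add, Algebra.algebraMap_eq_smul_one, Algebra.algebraMap_eq_smul_one,
        map_smul, h1]
    exact ⟨ab_transfer _ _ c fun M => (e M).ge, ab_transfer _ _ c fun M => (e M).le⟩
  have hsa : ∀ g ∈ S, IsSelfAdjoint g → IsSelfAdjoint (T g) := by
    intro g hg sg
    apply pr_sa
    intro y c t hy
    obtain ⟨a, rfl⟩ := hs y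
    rw [← map_smul, ← map_add, hT]
    exact pr_central (hS.hc g hg) sg a c t ((hT a c).1 hy)
  let Bt : B → ℝ → Prop := fun y c => ∀ ε > (0 : ℝ), ∃ g ∈ S, IsSelfAdjoint g ∧
    Ab (y + T g) (c + ε)
  let N : B → Prop := fun q => ∀ y c, Bt y c → Bt (y + q) c
  have nT : ∀ x, Q S x → N (T x) := by
    intro x hx y c hy ε hε
    obtain ⟨a, rfl⟩ := hs y
    obtain ⟨g, hg, sg, h⟩ := hy (ε / 2) (by positivity)
    rw [← map_add, hT] at h
    obtain ⟨g', hg', sg', h'⟩ := claim1 hS hx h (ε := ε / 2) (by positivity)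
    refine ⟨g + g', hS.hadd _ hg _ hg', sg.add sg', ?_⟩
    rw [← map_add, ← map_add, hT]
    convert h' using 1
    · abel
    · ring
  have bstar : ∀ y c, Bt y c → Bt (star y) c := by
    intro y c hy ε hε
    obtain ⟨g, hg, sg, h⟩ := hy ε hε
    refine ⟨g, hg, sg, ?_⟩
    have := ab_star h
    rwa [star_add, (hsa g hg sg).star_eq] at this
  have nsa : ∀ q, N q → ∀ ε > (0 : ℝ), ∃ g ∈ S, IsSelfAdjoint g ∧
      (q + star q) + T g ≤ algebraMap ℝ B ε := by
    intro q hq ε hε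
    have b0 : Bt 0 0 := fun ε hε => ⟨0, hS.h0, IsSelfAdjoint.zero A, by
      simpa using ab_zero hε.le⟩
    have b1 := hq _ _ (bstar _ _ (hq _ _ b0))
    obtain ⟨g, hg, sg, h⟩ := b1 ε hε
    refine ⟨g, hg, sg, le_of_ab ((IsSelfAdjoint.add_star_self q).add (hsa g hg sg)) ?_⟩
    rw [zero_add, zero_add, add_comm (star q)] at h
    exact h
  have key : ∀ x, Q S x → T x + star (T x) ∈ closure (TwoSidedIdeal.span (T '' S) : Set B) := by
    intro x hx
    rw [Metric.mem_closure_iff]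
    intro ε hε
    obtain ⟨g1, m1, s1, l1⟩ := nsa _ (nT x hx) (ε / 4) (by positivity)
    obtain ⟨g2, m2, s2, l2⟩ := nsa _ (nT (-x) (by simpa using q_mul hx (-1) 1)) (ε / 4)
      (by positivity)
    rw [map_neg, star_neg, ← neg_add] at l2
    obtain ⟨g, hg, hn⟩ := near_ideal (TwoSidedIdeal.span (T '' S))
      (IsSelfAdjoint.add_star_self (T x)) (hsa g1 m1 s1) (hsa g2 m2 s2)
      (TwoSidedIdeal.subset_span ⟨g1, m1, rfl⟩) (TwoSidedIdeal.subset_span ⟨g2, m2, rfl⟩)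
      (by positivity) l1 l2
    exact ⟨g, hg, by rw [dist_eq_norm]; linarith⟩
  have q1 := q_closure hS hx
  have k1 := key x q1
  have k2 := key (I • x) (by simpa [Algebra.smul_def] using q_mul q1 (algebraMap ℂ A I) 1)
  have e : T x = (1 / 2 : ℂ) • (T x + star (T x)) + (-I / 2 : ℂ) • (T (I • x) + star (T (I • x))) := by
    rw [map_smul, star_smul]
    simp only [RCLike.star_def, conj_I]
    match_scalars
    · linear_combination (1 / 2 : ℂ) * I_mul_I
    · linear_combination (-1 / 2 : ℂ) * I_mul_I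
  rw [e]
  refine map_mem_closure₂ (f := fun u v : B => (1 / 2 : ℂ) • u + (-I / 2 : ℂ) • v)
    (by fun_prop) k1 k2 ?_
  intro u hu v hv
  simp only [Algebra.smul_def]
  exact TwoSidedIdeal.add_mem _ (TwoSidedIdeal.mul_mem_left _ _ _ hu)
    (TwoSidedIdeal.mul_mem_left _ _ _ hv)

end Pool.Agent.H.MP_6c6b5e_an
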